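import Pool.Agent.H491R4.AF2
import Pool.Agent.R459.Bx3

set_option autoImplicit false

/-! All boxes, functions of `s` consecutive primes, for almost all members of automatic sets. -/

namespace Pool.Agent.R412.AB
open Finset
open Pool.Agent.R459.Eq Pool.Agent.R459.Bx Pool.Agent.H491R4.AF
open Pool.Agent.TH869.SQ (qs)

variable {σ : Type}

/-- a union of events -/
lemma wunion {ι τ : Type} (w : ι → ℝ) (E : Finset ι) (hw : ∀ i ∈ E, 0 ≤ w i) (Q : Finset τ) (R : τ → ι → Prop)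
    (hR : ∀ i ∈ E, ∃ q ∈ Q, R q i) (B : ℝ)
    (hB : ∀ q ∈ Q, ∀ E' : Finset ι, E' ⊆ E → (∀ i ∈ E', R q i) → ∑ i ∈ E', w i ≤ B) :
    ∑ i ∈ E, w i ≤ Q.card * B := by
  classical
  calc ∑ i ∈ E, w i ≤ ∑ i ∈ E, ∑ q ∈ Q, (if R q i then w i else 0) := by
        apply sum_le_sum
        intro i hi
        obtain ⟨q, hq, hqi⟩ := hR i hi
        calc w i = if R q i then w i else 0 := by rw [if_pos hqi]
          _ ≤ _ := single_le_sum (f := fun q => if R q i then w i else 0) (fun q _ => by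
            split_ifs
            · exact hw i hi
            · exact le_rfl) hq
    _ = ∑ q ∈ Q, ∑ i ∈ E.filter (fun i => R q i), w i := by
        rw [sum_comm]
        apply sum_congr rfl
        intro q _
        rw [sum_filter]
    _ ≤ ∑ _q ∈ Q, B := by
        apply sum_le_sum
        intro q hq
        exact hB q hq _ (filter_subset _ _) fun i hi => (Finset.mem_filter.1 hi).2
    _ = _ := by rw [sum_const, nsmul_eq_mul]

theorem boxes_aut [Fintype σ] (b : ℕ) (hb : 2 ≤ b) (M : DFA ℕ σ)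
    (hS : ∀ k : ℕ, ∃ᶠ N : ℕ in Filter.atTop, Real.log N ^ k < (acc b M N (fun _ => True) : ℝ))
    (s d : ℕ) (hs : 1 ≤ s) : ∃ W e : ℕ, 1 ≤ W ∧
    ∀ κ : ℤ, κ ≠ 0 → ∀ δ : ℝ, 0 < δ → δ ≤ 1 / 2 → ∃ X₀ : ℕ, ∀ X : ℕ, X₀ ≤ X → ∀ N : ℕ, ∀ c : ℤ,
    ∀ (m : ℕ) (g : Fin m → ℕ → ℤ → Fin d → ℝ), (∀ j, ∀ k : ℕ, ∀ m n : ℤ, (qs s k : ℤ) ∣ m - n → g j k m = g j k n) →
    AlmostS b M N κ c (Real.log N ^ e * (m * (X : ℝ) ^ (-δ))) (fun n => ∀ K : ℕ, X ≤ K → K ^ W ≤ N →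
      ∀ (j : Fin m) (u : Fin d → ℝ), |devB s (g j) n K u| ≤ (K : ℝ) ^ (1 / 2 + δ)) := by
  classical
  obtain ⟨B, A, e, N₀, hB, H⟩ := aut_almost_x b hb M hS
  obtain ⟨W, hW, K⟩ := allB B hB A (1 / 2) (by norm_num) (by norm_num) s d hs
  refine ⟨W, e, hW, fun κ hκ δ hδ hδ1 => ?_⟩
  obtain ⟨X₀, J⟩ := K B.factorial κ (Nat.factorial_pos _) hκ δ hδ hδ1
  refine ⟨X₀ + N₀ + 1, fun X hX N c m g hg => ?_⟩
  refine H N X W (by omega) hW κ c _ (fun x n => ∀ (j : Fin m) (u : Fin d → ℝ), |devB s (g j) n x u| ≤ (x : ℝ) ^ (1 / 2 + δ))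
    (by positivity) fun ι Ω w v hdec E hE hbad => ?_
  obtain ⟨k, hk⟩ : ∃ k, k = Nat.log B N + 1 := ⟨_, rfl⟩
  rw [← hk] at hdec hbad
  have hbad' : ∀ i ∈ E, ∃ j ∈ (univ : Finset (Fin m)), ∃ (x : ℕ) (u : Fin d → ℝ), X ≤ x ∧ x ^ W ≤ B ^ k ∧
        (x : ℝ) ^ (1 / 2 + δ) < |devB s (g j) (v i) x u| := by
    intro i hi
    obtain ⟨x, hXx, hxW, h5⟩ := hbad i hi
    push Not at h5
    obtain ⟨j, u, hu⟩ := h5
    exact ⟨j, mem_univ _, x, u, hXx, hxW, hu⟩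
  have h5 := wunion w E (fun i hi => hdec.nonneg i (hE hi)) univ _ hbad' ((X : ℝ) ^ (-δ))
      (fun j _ E' hE' h => J X (by omega) k ι Ω w v hdec (g j) (hg j) E' (hE'.trans hE) h)
  rwa [card_univ, Fintype.card_fin] at h5

end Pool.Agent.R412.AB
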