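import Mathlib

/-!
# Arithmetic of the curve `z² = y⁴ + 1` and of the ideles of `ℚ`
-/

set_option autoImplicit false

open Polynomial

namespace Pool.Agent.R412

/-- A nonzero integer square modulo an odd prime is a square in `ℤ_[p]`. -/
theorem exists_sqrt (p : ℕ) [Fact p.Prime] (hp2 : p ≠ 2) (a : ℤ) (ha : ¬ (p : ℤ) ∣ a)
    (h : IsSquare (a : ZMod p)) : ∃ r : ℤ_[p], r ^ 2 = a := by
  obtain ⟨b, hb⟩ := h
  obtain ⟨n, rfl⟩ := ZMod.natCast_zmod_surjective b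
  have hdvd : (p : ℤ) ∣ (n : ℤ) ^ 2 - a := by
    rw [← ZMod.intCast_zmod_eq_zero_iff_dvd]
    push_cast
    rw [hb]; ring
  have hn : ¬ (p : ℤ) ∣ 2 * (n : ℤ) := by
    intro h2
    have hp : Prime (p : ℤ) := Nat.prime_iff_prime_int.1 Fact.out
    rcases hp.dvd_or_dvd h2 with h3 | h3
    · have : (p : ℤ) ≤ 2 := Int.le_of_dvd (by norm_num) h3
      have h4 := (Fact.out : p.Prime).two_le
      omega
    · apply ha
      have h4 : (p : ℤ) ∣ (n : ℤ) ^ 2 := h3.pow two_ne_zero |> fun h => h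
      have := (Int.dvd_iff_dvd_of_dvd_sub hdvd).1 h4
      exact this
  have hlt : ‖(((n : ℤ) ^ 2 - a : ℤ) : ℤ_[p])‖ < 1 := (PadicInt.norm_int_lt_one_iff_dvd _).2 hdvd
  have heq : ‖((2 * (n : ℤ) : ℤ) : ℤ_[p])‖ = 1 := by
    by_contra hne
    have : ‖((2 * (n : ℤ) : ℤ) : ℤ_[p])‖ < 1 := lt_of_le_of_ne (PadicInt.norm_le_one _) hne
    exact hn ((PadicInt.norm_int_lt_one_iff_dvd _).1 this)
  obtain ⟨z, hz, _⟩ := hensels_lemma (R := ℤ_[p]) (F := (X ^ 2 - C ((a : ℤ) : ℤ_[p]) : ℤ_[p][X]))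
    (a := ((n : ℤ) : ℤ_[p])) (by
      have e1 : aeval (((n : ℤ) : ℤ_[p])) (X ^ 2 - C ((a : ℤ) : ℤ_[p]) : ℤ_[p][X]) =
          (((n : ℤ) ^ 2 - a : ℤ) : ℤ_[p]) := by simp
      have e2 : aeval (((n : ℤ) : ℤ_[p])) (derivative (X ^ 2 - C ((a : ℤ) : ℤ_[p]) : ℤ_[p][X])) =
          ((2 * (n : ℤ) : ℤ) : ℤ_[p]) := by
        simp
        left
        norm_num
      rw [e1, e2, heq]
      simpa using hlt)
  refine ⟨z, ?_⟩
  have : aeval z (X ^ 2 - C ((a : ℤ) : ℤ_[p]) : ℤ_[p][X]) = z ^ 2 - (a : ℤ_[p]) := by simp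
  rw [this] at hz
  exact sub_eq_zero.1 hz

/-- `1 + 256 p⁴` is a square in `ℤ_[p]`. -/
theorem exists_sqrt' (p : ℕ) [Fact p.Prime] : ∃ r : ℤ_[p], r ^ 2 = 1 + 256 * (p : ℤ_[p]) ^ 4 := by
  have hp : p.Prime := Fact.out
  have e2 : ‖(2 : ℤ_[p])‖ ^ 2 > ‖(256 * (p : ℤ_[p]) ^ 4 : ℤ_[p])‖ := by
    rw [norm_mul, norm_pow, PadicInt.norm_p]
    by_cases h2 : p = 2
    · subst h2
      have e3 : ‖(256 : ℤ_[2])‖ = ‖(2 : ℤ_[2])‖ ^ 8 := by
        rw [← norm_pow]; norm_num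
      have e4 : ‖(2 : ℤ_[2])‖ = (2 : ℝ)⁻¹ := by
        have := PadicInt.norm_p (p := 2)
        exact_mod_cast this
      rw [e3, e4]
      norm_num
    · have e3 : ‖(2 : ℤ_[p])‖ = 1 := by
        by_contra hne
        have h3 : ‖((2 : ℤ) : ℤ_[p])‖ < 1 := by
          refine lt_of_le_of_ne (PadicInt.norm_le_one _) ?_
          exact_mod_cast hne
        have h4 := (PadicInt.norm_int_lt_one_iff_dvd _).1 h3
        have h5 : (p : ℤ) ≤ 2 := Int.le_of_dvd (by norm_num) h4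
        have := hp.two_le
        omega
      rw [e3]
      have h6 : ‖(256 : ℤ_[p])‖ ≤ 1 := PadicInt.norm_le_one _
      have h7 : ((p : ℝ)⁻¹) ^ 4 < 1 := by
        apply pow_lt_one₀ (by positivity) _ (by norm_num)
        apply inv_lt_one_of_one_lt₀
        exact_mod_cast hp.one_lt
      have h8 : 0 ≤ ((p : ℝ)⁻¹) ^ 4 := by positivity
      nlinarith [norm_nonneg (256 : ℤ_[p])]
  obtain ⟨z, hz, _⟩ := hensels_lemma (R := ℤ_[p])
    (F := (X ^ 2 - C (1 + 256 * (p : ℤ_[p]) ^ 4) : ℤ_[p][X])) (a := 1) (by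
      have e1 : aeval (1 : ℤ_[p]) (X ^ 2 - C (1 + 256 * (p : ℤ_[p]) ^ 4) : ℤ_[p][X]) =
          -(256 * (p : ℤ_[p]) ^ 4) := by simp
      have e3 : aeval (1 : ℤ_[p]) (derivative (X ^ 2 - C (1 + 256 * (p : ℤ_[p]) ^ 4) : ℤ_[p][X])) =
          (2 : ℤ_[p]) := by
        rw [derivative_sub, derivative_C, sub_zero]
        simp
        norm_num
      rw [e1, e3, norm_neg]
      exact e2)
  refine ⟨z, ?_⟩
  have : aeval z (X ^ 2 - C (1 + 256 * (p : ℤ_[p]) ^ 4) : ℤ_[p][X]) =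
    z ^ 2 - (1 + 256 * (p : ℤ_[p]) ^ 4) := by simp
  rw [this] at hz
  exact sub_eq_zero.1 hz

theorem norm_natCast_of_lt (p : ℕ) [Fact p.Prime] (n : ℕ) (hn : 0 < n) (h : n < p) :
    ‖(n : ℚ_[p])‖ = 1 := by
  rw [Padic.norm_natCast_eq_one_iff]
  exact (Nat.Prime.coprime_iff_not_dvd Fact.out).2 fun hd => by
    have := Nat.le_of_dvd hn hd
    omega

/-- The local points of the curve `z² = y⁴ + 1`. -/
theorem local_point (p : ℕ) [Fact p.Prime] : ∃ y z : ℚ_[p], y ≠ 0 ∧ z ≠ 0 ∧ z ^ 2 = y ^ 4 + 1 ∧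
    (41 < p → ‖y‖ = 1 ∧ ‖z‖ = 1) := by
  have hp : p.Prime := Fact.out
  by_cases h41 : 41 < p
  · have hn : ∀ n : ℕ, 0 < n → n ≤ 41 → ‖(n : ℚ_[p])‖ = 1 := fun n h1 h2 =>
      norm_natCast_of_lt p n h1 (by omega)
    have h0 : ∀ n : ℕ, 0 < n → n ≤ 41 → ((n : ℤ) : ZMod p) ≠ 0 := by
      intro n h1 h2 h3
      rw [ZMod.intCast_zmod_eq_zero_iff_dvd] at h3
      have := Int.le_of_dvd (by exact_mod_cast h1) h3
      omega
    have hsq : IsSquare ((3 : ℤ) : ZMod p) ∨ IsSquare ((10 : ℤ) : ZMod p) ∨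
        IsSquare ((30 : ℤ) : ZMod p) := by
      by_contra hcon
      push Not at hcon
      obtain ⟨h3, h10, h30⟩ := hcon
      have e3 : legendreSym p 3 = -1 := (legendreSym.eq_neg_one_iff p).2 h3
      have e10 : legendreSym p 10 = -1 := (legendreSym.eq_neg_one_iff p).2 h10
      have e30 : legendreSym p 30 = -1 := (legendreSym.eq_neg_one_iff p).2 h30
      have : legendreSym p (3 * 10) = legendreSym p 3 * legendreSym p 10 := legendreSym.mul p 3 10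
      norm_num at this
      rw [e3, e10, e30] at this
      norm_num at this
    have key : ∀ (a b c d : ℕ) (_ : 0 < a) (_ : a ≤ 41) (_ : 0 < b) (_ : b ≤ 41)
        (_ : 0 < c) (_ : c ≤ 41) (_ : 0 < d) (_ : d ≤ 41) (m : ℕ) (_ : 0 < m) (_ : m ≤ 41)
        (_ : IsSquare ((a : ℤ) : ZMod p))
        (_ : (c : ℚ) ^ 2 / d ^ 2 = ((m : ℚ) / b) ^ 4 * a ^ 2 + 1),
        ∃ y z : ℚ_[p], y ≠ 0 ∧ z ≠ 0 ∧ z ^ 2 = y ^ 4 + 1 ∧ (41 < p → ‖y‖ = 1 ∧ ‖z‖ = 1) := by
      intro a b c d ha ha' hb hb' hc hc' hd hd' m hm hm' hs heq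
      obtain ⟨r, hr⟩ := exists_sqrt p (by omega) a (fun h => by
        have := Int.le_of_dvd (by exact_mod_cast ha) h
        omega) hs
      have hr' : (r : ℚ_[p]) ^ 2 = a := by
        have := congrArg (fun x : ℤ_[p] => (x : ℚ_[p])) hr
        simpa using this
      have hrn : ‖(r : ℚ_[p])‖ = 1 := by
        have h1 : ‖(r : ℚ_[p])‖ ^ 2 = 1 := by rw [← norm_pow, hr', hn a ha ha']
        have h2 : (0 : ℝ) ≤ ‖(r : ℚ_[p])‖ := norm_nonneg _
        nlinarith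
      have hy : ‖((m : ℚ_[p]) / b * r)‖ = 1 := by
        rw [norm_mul, norm_div, hn m hm hm', hn b hb hb', hrn]; norm_num
      have hz : ‖((c : ℚ_[p]) / d)‖ = 1 := by
        rw [norm_div, hn c hc hc', hn d hd hd']; norm_num
      refine ⟨(m : ℚ_[p]) / b * r, (c : ℚ_[p]) / d, ?_, ?_, ?_, fun _ => ⟨hy, hz⟩⟩
      · intro h; rw [h, norm_zero] at hy; exact zero_ne_one hy
      · intro h; rw [h, norm_zero] at hz; exact zero_ne_one hz
      · have h1 := congrArg (fun x : ℚ => (x : ℚ_[p])) heq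
        push_cast at h1
        rw [div_pow, h1]
        have h2 : (r : ℚ_[p]) ^ 4 = (a : ℚ_[p]) ^ 2 := by rw [← hr']; ring
        rw [mul_pow, h2]
    rcases hsq with h | h | h
    · exact key 3 2 5 4 (by norm_num) (by norm_num) (by norm_num) (by norm_num) (by norm_num)
        (by norm_num) (by norm_num) (by norm_num) 1 (by norm_num) (by norm_num) h (by norm_num)
    · exact key 10 3 41 9 (by norm_num) (by norm_num) (by norm_num) (by norm_num) (by norm_num)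
        (by norm_num) (by norm_num) (by norm_num) 2 (by norm_num) (by norm_num) h (by norm_num)
    · exact key 30 4 17 8 (by norm_num) (by norm_num) (by norm_num) (by norm_num) (by norm_num)
        (by norm_num) (by norm_num) (by norm_num) 1 (by norm_num) (by norm_num) h (by norm_num)
  · obtain ⟨r, hr⟩ := exists_sqrt' p
    have hr' : (r : ℚ_[p]) ^ 2 = 1 + 256 * (p : ℚ_[p]) ^ 4 := by
      have h256 : ((256 : ℤ_[p]) : ℚ_[p]) = 256 := map_ofNat (PadicInt.Coe.ringHom (p := p)) 256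
      have := congrArg (fun x : ℤ_[p] => (x : ℚ_[p])) hr
      simpa [h256] using this
    have hp0 : (p : ℚ_[p]) ≠ 0 := by exact_mod_cast hp.ne_zero
    have hz : (r : ℚ_[p]) ^ 2 = (4 * (p : ℚ_[p])) ^ 4 + 1 := by rw [hr']; ring
    refine ⟨4 * (p : ℚ_[p]), r, ?_, ?_, hz, fun h => absurd h h41⟩
    · exact mul_ne_zero (by norm_num) hp0
    · intro h
      rw [h] at hz
      have h1 : ((((4 * p : ℕ) ^ 4 + 1 : ℕ)) : ℚ_[p]) = 0 := by
        push_cast
        rw [← hz]; norm_num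
      have h2 : ((4 * p : ℕ) ^ 4 + 1) = 0 := by exact_mod_cast h1
      omega

/-- The curve `z² = y⁴ + 1` has no rational point with `y ≠ 0`. -/
theorem no_rational_point (y z : ℚ) (hy : y ≠ 0) : z ^ 2 ≠ y ^ 4 + 1 := by
  intro h
  have hyd : (y.den : ℚ) ≠ 0 := by exact_mod_cast y.den_ne_zero
  have hzd : (z.den : ℚ) ≠ 0 := by exact_mod_cast z.den_ne_zero
  have hyn : (y.num : ℚ) = y * y.den := by rw [Rat.mul_den_eq_num]
  have hzn : (z.num : ℚ) = z * z.den := by rw [Rat.mul_den_eq_num]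
  have h1 : ((y.num : ℚ) * z.den) ^ 4 + ((y.den : ℚ) * z.den) ^ 4 =
      ((z.num : ℚ) * z.den * (y.den : ℚ) ^ 2) ^ 2 := by
    rw [hyn, hzn]
    have : (z * z.den * z.den * (y.den : ℚ) ^ 2) ^ 2 = z ^ 2 * (z.den : ℚ) ^ 4 * (y.den : ℚ) ^ 4 := by ring
    rw [this, h]; ring
  have h2 : (y.num * z.den) ^ 4 + ((y.den : ℤ) * z.den) ^ 4 =
      (z.num * z.den * (y.den : ℤ) ^ 2) ^ 2 := by exact_mod_cast h1
  refine not_fermat_42 ?_ ?_ h2
  · exact mul_ne_zero (Rat.num_ne_zero.2 hy) (by exact_mod_cast z.den_ne_zero)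
  · exact mul_ne_zero (by exact_mod_cast y.den_ne_zero) (by exact_mod_cast z.den_ne_zero)

/-- A positive rational number which is a unit at all primes is `1`. -/
theorem eq_one_of_norm (q : ℚ) (hq : 0 < q) (h : ∀ (p : ℕ) [Fact p.Prime], ‖(q : ℚ_[p])‖ = 1) :
    q = 1 := by
  have hcast : ∀ (p : ℕ) [Fact p.Prime], (q : ℚ_[p]) = (q.num : ℚ_[p]) / (q.den : ℚ_[p]) := by
    intro p _
    exact Rat.cast_def q
  have hnorm : ∀ (p : ℕ) [Fact p.Prime], ‖((q.num.natAbs : ℕ) : ℚ_[p])‖ = ‖((q.den : ℕ) : ℚ_[p])‖ := by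
    intro p _
    have h1 := h p
    rw [hcast p, norm_div] at h1
    have h2 : ‖((q.num.natAbs : ℕ) : ℚ_[p])‖ = ‖(q.num : ℚ_[p])‖ := by
      have h3 : ((q.num.natAbs : ℕ) : ℤ) = q.num := Int.natAbs_of_nonneg (Rat.num_pos.2 hq).le
      have h5 : (q.num : ℚ_[p]) = (((q.num.natAbs : ℕ) : ℤ) : ℚ_[p]) := by rw [h3]
      rw [h5, Int.cast_natCast]
    rw [h2]
    have h4 : ‖((q.den : ℕ) : ℚ_[p])‖ ≠ 0 := by
      rw [norm_ne_zero_iff]
      exact_mod_cast q.den_ne_zero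
    exact (div_eq_one_iff_eq h4).1 h1
  have hden : q.den = 1 := by
    by_contra hne
    obtain ⟨p, hp, hpd⟩ := Nat.exists_prime_and_dvd hne
    haveI : Fact p.Prime := ⟨hp⟩
    have h1 : ‖((q.den : ℕ) : ℚ_[p])‖ < 1 := Padic.norm_natCast_lt_one_iff.2 hpd
    rw [← hnorm p] at h1
    have h2 := Padic.norm_natCast_lt_one_iff.1 h1
    exact hp.one_lt.ne' (Nat.dvd_one.1 (q.reduced ▸ Nat.dvd_gcd h2 hpd))
  have hnum : q.num.natAbs = 1 := by
    by_contra hne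
    obtain ⟨p, hp, hpd⟩ := Nat.exists_prime_and_dvd hne
    haveI : Fact p.Prime := ⟨hp⟩
    have h1 : ‖((q.num.natAbs : ℕ) : ℚ_[p])‖ < 1 := Padic.norm_natCast_lt_one_iff.2 hpd
    rw [hnorm p, hden] at h1
    simp at h1
  have hnum' : q.num = 1 := by
    have h3 : ((q.num.natAbs : ℕ) : ℤ) = q.num := Int.natAbs_of_nonneg (Rat.num_pos.2 hq).le
    rw [← h3, hnum]; rfl
  rw [← Rat.num_div_den q, hnum', hden]
  norm_num

/-- There are rational numbers with given absolute values at finitely many primes. -/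
theorem exists_rat (S : Finset Nat.Primes) (v : Nat.Primes → ℤ) : ∃ r : ℚ, 0 < r ∧
    ∀ p : Nat.Primes, ∀ _ : Fact (p : ℕ).Prime,
      ‖(r : ℚ_[(p : ℕ)])‖ = if p ∈ S then ((p : ℕ) : ℝ) ^ (-(v p)) else 1 := by
  classical
  induction S using Finset.induction_on with
  | empty => exact ⟨1, one_pos, by simp⟩
  | insert a S ha ih =>
    obtain ⟨r, hr, h⟩ := ih
    refine ⟨r * ((a : ℕ) : ℚ) ^ (v a), ?_, ?_⟩
    · have : (0 : ℚ) < ((a : ℕ) : ℚ) := by exact_mod_cast a.2.pos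
      positivity
    · intro p hp
      push_cast
      rw [norm_mul, h p hp, norm_zpow]
      by_cases hpa : p = a
      · subst hpa
        rw [if_neg ha, if_pos (Finset.mem_insert_self _ _), Padic.norm_p, one_mul, inv_zpow,
          zpow_neg]
      · have h1 : ‖((a : ℕ) : ℚ_[(p : ℕ)])‖ = 1 := by
          rw [Padic.norm_natCast_eq_one_iff]
          refine (Nat.coprime_primes hp.out a.2).2 ?_
          intro h2
          exact hpa (Subtype.ext h2)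
        rw [h1, one_zpow, mul_one]
        by_cases hpS : p ∈ S
        · rw [if_pos hpS, if_pos (Finset.mem_insert_of_mem hpS)]
        · rw [if_neg hpS, if_neg]
          rw [Finset.mem_insert]
          push Not
          exact ⟨hpa, hpS⟩

/-- Characters separate the units of `ℤ_[p]`. -/
theorem exists_char (p : ℕ) [Fact p.Prime] (u : ℤ_[p]ˣ) (hu : u ≠ 1) : ∃ (k : ℕ)
    (χ : (ZMod (p ^ k))ˣ →* ℂˣ),
      χ (Units.map ((PadicInt.toZModPow k : ℤ_[p] →+* ZMod (p ^ k)) : ℤ_[p] →* ZMod (p ^ k)) u) ≠ 1 := by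
  have h1 : ∃ k, PadicInt.toZModPow k (u : ℤ_[p]) ≠ 1 := by
    by_contra hcon
    push Not at hcon
    apply hu
    apply Units.ext
    apply PadicInt.ext_of_toZModPow.1
    intro n
    rw [hcon n, Units.val_one, map_one]
  obtain ⟨k, hk⟩ := h1
  haveI : NeZero (p ^ k) := ⟨pow_ne_zero _ (Fact.out : p.Prime).ne_zero⟩
  have h2 : Units.map ((PadicInt.toZModPow k : ℤ_[p] →+* ZMod (p ^ k)) : ℤ_[p] →* ZMod (p ^ k)) u ≠ 1 := by
    intro h3
    apply hk
    have := congrArg Units.val h3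
    exact this
  obtain ⟨χ, hχ⟩ := CommGroup.exists_apply_ne_one_of_hasEnoughRootsOfUnity (ZMod (p ^ k))ˣ ℂ h2
  exact ⟨k, χ, hχ⟩

end Pool.Agent.R412
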