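import Pool.Agent.R412.Section

/-!
# The function field of the curve `z² = y⁴ + 1` over `ℚ` and its sections
-/

set_option autoImplicit false

open Polynomial

namespace Pool.Agent.R412

open Pool.Agent.Helper165.P1

/-- The element `y⁴ + 1` of `ℚ(y)` is not a square. -/
theorem not_isSquare : ¬ IsSquare ((RatFunc.X : RatFunc ℚ) ^ 4 + 1) := by
  rintro ⟨r, hr⟩
  have hint : IsIntegral ℚ[X] r := by
    refine ⟨X ^ 2 - C (X ^ 4 + 1 : ℚ[X]), monic_X_pow_sub_C _ two_ne_zero, ?_⟩
    rw [eval₂_sub, eval₂_X_pow, eval₂_C]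
    rw [pow_two, ← hr]
    simp [RatFunc.algebraMap_X]
  obtain ⟨g, hg⟩ := IsIntegrallyClosed.isIntegral_iff.1 hint
  have h1 : (X ^ 4 + 1 : ℚ[X]) = g * g := by
    apply IsFractionRing.injective ℚ[X] (RatFunc ℚ)
    rw [map_mul, hg, ← hr]
    simp [RatFunc.algebraMap_X]
  have h2 := congrArg (Polynomial.eval 1) h1
  simp only [eval_add, eval_pow, eval_X, one_pow, eval_one, eval_mul] at h2
  have h3 : IsSquare (2 : ℚ) := ⟨g.eval 1, by rw [← h2]; norm_num⟩
  have h4 : ¬ IsSquare (2 : ℚ) := by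
    rw [Rat.isSquare_iff]
    rintro ⟨h5, _⟩
    have : IsSquare (2 : ℤ) := by simpa using h5
    obtain ⟨m, hm⟩ := this
    have hm1 : m < 2 := by nlinarith
    have hm2 : -2 < m := by nlinarith
    interval_cases m <;> omega
  exact h4 h3

/-- The polynomial `Z² - (y⁴ + 1)` over `ℚ(y)`. -/
noncomputable def quarticPoly : (RatFunc ℚ)[X] := X ^ 2 - C (RatFunc.X ^ 4 + 1)

instance quarticPoly_irreducible : Fact (Irreducible quarticPoly) := ⟨by
  unfold quarticPoly
  rw [X_pow_sub_C_irreducible_iff_of_prime Nat.prime_two]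
  intro b hb
  exact not_isSquare ⟨b, by rw [← hb]; ring⟩⟩

variable {E : Type} [Field E] [Algebra ℚ E] [IsAlgClosure ℚ E]

theorem eval_tP_injective : Function.Injective
    (eval₂RingHom ((cP : E →+* Pui E).comp (algebraMap ℚ E)) tP) := by
  haveI : CharZero E := algebraRat.charZero E
  rw [injective_iff_map_eq_zero]
  intro p hp
  by_contra hp0
  obtain ⟨a, ha⟩ := const_of_root (tP : Pui E) p hp0 _ hp
  have h1 : ((tP : Pui E) : HQ E).coeff 1 = ((cP a : Pui E) : HQ E).coeff 1 := by rw [ha]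
  rw [tP_coeff, cP_coeff, if_pos rfl, if_neg one_ne_zero] at h1
  exact one_ne_zero h1

/-- The embedding of `ℚ(y)` given by `y ↦ t`. -/
noncomputable def ratHom : RatFunc ℚ →+* Pui E :=
  IsFractionRing.lift (A := ℚ[X]) (eval_tP_injective (E := E))

theorem ratHom_algebraMap (p : ℚ[X]) : ratHom (algebraMap ℚ[X] (RatFunc ℚ) p) =
    eval₂RingHom ((cP : E →+* Pui E).comp (algebraMap ℚ E)) tP p :=
  IsFractionRing.lift_algebraMap _ _

theorem twP_ratHom (σ : E ≃+* E) (x : RatFunc ℚ) : twP σ 1 (ratHom x) = (ratHom x : Pui E) := by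
  have h : ((twP σ 1 : Pui E ≃+* Pui E) : Pui E →+* Pui E).comp ratHom = ratHom := by
    apply IsLocalization.ringHom_ext (nonZeroDivisors ℚ[X])
    apply Polynomial.ringHom_ext
    · intro a
      simp only [RingHom.comp_apply, ratHom_algebraMap, coe_eval₂RingHom, eval₂_C]
      change twP σ 1 (cP (algebraMap ℚ E a)) = _
      rw [twP_cP]
      congr 1
      change ((σ : E →+* E).comp (algebraMap ℚ E)) a = _
      congr 1
      exact Subsingleton.elim _ _
    · simp only [RingHom.comp_apply, ratHom_algebraMap, coe_eval₂RingHom, eval₂_X]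
      exact twP_tP σ
  exact RingHom.congr_fun h x

theorem tP_mem : ((tP : Pui E) : HQ E) ∈ (OH : Subring (HQ E)) := by
  intro q hq
  rw [tP_coeff, if_neg]
  linarith

theorem exists_root : ∃ w : Pui E, w ^ 2 = tP ^ 4 + 1 ∧ ∀ σ : E ≃+* E, twP σ 1 w = w := by
  haveI : CharZero E := algebraRat.charZero E
  haveI : IsAlgClosed E := IsAlgClosure.isAlgClosed ℚ
  haveI : CharZero (Pui E) := charZero_of_injective_ringHom (cP : E →+* Pui E).injective
  obtain ⟨w, hw⟩ := IsAlgClosed.exists_pow_nat_eq ((tP : Pui E) ^ 4 + 1) two_pos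
  refine ⟨w, hw, ?_⟩
  have hwH : ((w : Pui E) : HQ E) ^ 2 = ((tP : Pui E) : HQ E) ^ 4 + 1 := by
    have := congrArg (fun x : Pui E => (x : HQ E)) hw
    simpa using this
  have ht : ((tP : Pui E) : HQ E) ^ 4 + 1 ∈ (OH : Subring (HQ E)) :=
    add_mem (pow_mem tP_mem 4) (one_mem _)
  have ht0 : (((tP : Pui E) : HQ E) ^ 4 + 1).coeff 0 = 1 := by
    have h1 : (((tP : Pui E) : HQ E) ^ 4).coeff 0 = 0 := by
      have h2 : ((tP : Pui E) : HQ E) ^ 4 = ((tP : Pui E) : HQ E) * ((tP : Pui E) : HQ E) ^ 3 := by ring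
      rw [h2, coeff_zero_mul tP_mem (pow_mem tP_mem 3), tP_coeff, if_neg (by norm_num), zero_mul]
    rw [HahnSeries.coeff_add, h1, zero_add, HahnSeries.coeff_one, if_pos rfl]
  have hw0 : (w : HQ E) ≠ 0 := by
    intro h
    rw [h] at hwH
    have h1 : ((0 : HQ E) ^ 2).coeff 0 = 0 := by simp
    rw [hwH, ht0] at h1
    exact one_ne_zero h1
  have hwO : (w : HQ E) ∈ (OH : Subring (HQ E)) := by
    rcases mem_or_inv_mem (w : HQ E) with h | h
    · exact h
    · have h1 : ((w : HQ E)⁻¹) ^ 2 * (((tP : Pui E) : HQ E) ^ 4 + 1) = 1 := by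
        rw [← hwH, inv_pow, inv_mul_cancel₀ (pow_ne_zero 2 hw0)]
      have h2 : ((w : HQ E)⁻¹).coeff 0 * ((w : HQ E)⁻¹).coeff 0 = 1 := by
        have h3 : (((w : HQ E)⁻¹) ^ 2 * (((tP : Pui E) : HQ E) ^ 4 + 1)).coeff 0 =
            (1 : HQ E).coeff 0 := by rw [h1]
        rw [coeff_zero_mul (pow_mem h 2) ht, ht0, mul_one, pow_two, coeff_zero_mul h h,
          HahnSeries.coeff_one, if_pos rfl] at h3
        exact h3
      have h4 : ((w : HQ E)⁻¹).coeff 0 ≠ 0 := by
        intro h5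
        rw [h5, zero_mul] at h2
        exact zero_ne_one h2
      have h5 := inv_mem_of_coeff_ne_zero h h4
      rwa [inv_inv] at h5
  have hc : (w : HQ E).coeff 0 = 1 ∨ (w : HQ E).coeff 0 = -1 := by
    have h1 : (w : HQ E).coeff 0 * (w : HQ E).coeff 0 = 1 := by
      rw [← coeff_zero_mul hwO hwO, ← pow_two, hwH, ht0]
    rcases mul_self_eq_one_iff.1 h1 with h | h
    · exact Or.inl h
    · exact Or.inr h
  intro σ
  have h1 : (twP σ 1 w) ^ 2 = w ^ 2 := by
    rw [← map_pow, hw, map_add, map_pow, twP_tP, map_one]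
  rcases sq_eq_sq_iff_eq_or_eq_neg.1 h1 with h | h
  · exact h
  · exfalso
    have h2 : ((twP σ 1 w : Pui E) : HQ E).coeff 0 = -((w : HQ E).coeff 0) := by
      rw [h]; rfl
    rw [twP_coeff] at h2
    simp only [AddChar.one_apply, one_mul] at h2
    rcases hc with h3 | h3
    · rw [h3, map_one] at h2
      have h4 : (2 : E) = 0 := by linear_combination h2
      exact two_ne_zero h4
    · rw [h3, map_neg, map_one] at h2
      have h4 : (2 : E) = 0 := by linear_combination -h2
      exact two_ne_zero h4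

theorem exists_hom : ∃ φ : AdjoinRoot quarticPoly →+* Pui E,
    ∀ (σ : E ≃+* E) (x : AdjoinRoot quarticPoly), twP σ 1 (φ x) = φ x := by
  obtain ⟨w, hw, hσ⟩ := exists_root (E := E)
  have h0 : quarticPoly.eval₂ ratHom w = 0 := by
    unfold quarticPoly
    rw [eval₂_sub, eval₂_X_pow, eval₂_C, hw, map_add, map_pow, map_one, ← RatFunc.algebraMap_X,
      ratHom_algebraMap]
    simp
  refine ⟨AdjoinRoot.lift ratHom w h0, fun σ x => ?_⟩
  have h : ((twP σ 1 : Pui E ≃+* Pui E) : Pui E →+* Pui E).comp (AdjoinRoot.lift ratHom w h0) =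
      AdjoinRoot.lift ratHom w h0 := by
    apply AdjoinRoot.ringHom_ext
    · refine RingHom.ext fun x => ?_
      simp only [RingHom.comp_apply, AdjoinRoot.lift_of]
      exact twP_ratHom σ _
    · simp only [RingHom.comp_apply, AdjoinRoot.lift_root]
      exact hσ σ
  exact RingHom.congr_fun h x

end Pool.Agent.R412
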