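import Pool.Agent.Helper165.P1.Fields

/-!
# Sections of Galois groups of function fields at a rational point

Let `F` be a field of characteristic zero which is embedded in the field of Puiseux series over an
algebraic closure `E` of `ℚ` such that the elements of `F` have rational coefficients. Then the
restriction `Gal(Ω/F) → Gal(E/ℚ)`, `Ω` an algebraic closure of `F`, has a continuous section.
-/

set_option autoImplicit false

open Polynomial

namespace Pool.Agent.R412

open Pool.Agent.Helper165.P1

section consts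

variable {E : Type*} [Field E]

theorem eHom_single (m : ℕ) (hm : 0 < m) (n : ℤ) (c : E) :
    eHom m hm (HahnSeries.single n c) = HahnSeries.single ((n : ℚ) / m) c := by
  unfold eHom
  rw [HahnSeries.embDomainRingHom_apply]
  exact HahnSeries.embDomain_single

/-- Constants as Puiseux series. -/
noncomputable def cP : E →+* Pui E :=
  (HahnSeries.C : E →+* HQ E).codRestrict (Pui E) (fun e => ⟨1, one_pos, HahnSeries.C e, by
    change eHom 1 one_pos (HahnSeries.single 0 e) = HahnSeries.single 0 e
    rw [eHom_single]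
    simp⟩)

theorem cP_coeff (e : E) (q : ℚ) : ((cP e : Pui E) : HQ E).coeff q = if q = 0 then e else 0 := by
  change (HahnSeries.single (0 : ℚ) e).coeff q = _
  split_ifs with h
  · rw [h, HahnSeries.coeff_single_same]
  · rw [HahnSeries.coeff_single_of_ne h]

theorem twP_cP (σ : E ≃+* E) (ψ : AddChar ℚ E) (e : E) : twP σ ψ (cP e) = cP (σ e) := by
  apply Subtype.ext
  ext q
  rw [twP_coeff, cP_coeff, cP_coeff]
  split_ifs with h
  · rw [h, AddChar.map_zero_eq_one, one_mul]
  · rw [map_zero, mul_zero]

/-- The variable. -/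
noncomputable def tP : Pui E := ⟨HahnSeries.single 1 1, 1, one_pos, HahnSeries.single 1 1, by
    rw [eHom_single]
    simp⟩

theorem tP_coeff (q : ℚ) : ((tP : Pui E) : HQ E).coeff q = if q = 1 then 1 else 0 := by
  change (HahnSeries.single (1 : ℚ) (1 : E)).coeff q = _
  split_ifs with h
  · rw [h, HahnSeries.coeff_single_same]
  · rw [HahnSeries.coeff_single_of_ne h]

theorem twP_tP (σ : E ≃+* E) : twP σ 1 (tP : Pui E) = tP := by
  apply Subtype.ext
  ext q
  rw [twP_coeff, tP_coeff]
  split_ifs with h
  · simp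
  · simp

end consts

section main

variable {F Ω E : Type} [Field F] [Field Ω] [Field E] [Algebra F Ω] [IsAlgClosure F Ω]
  [Algebra ℚ E] [IsAlgClosure ℚ E]

/-- The coefficientwise action on the elements of the field of Puiseux series which are algebraic
over `F`. -/
noncomputable def twK [CharZero E] [Algebra F (Pui E)]
    (hφ : ∀ (σ : E ≃+* E) (x : F), twP σ 1 (algebraMap F (Pui E) x) = algebraMap F (Pui E) x) :
    (E ≃ₐ[ℚ] E) →* (algebraicClosure F (Pui E) ≃ₐ[F] algebraicClosure F (Pui E)) where
  toFun σ := restrCl (AlgEquiv.ofRingEquiv (f := twP (σ : E ≃+* E) 1) (fun x => hφ _ x))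
  map_one' := by
    apply AlgEquiv.ext
    intro x
    apply Subtype.ext
    apply Subtype.ext
    ext q
    rw [restrCl_coe]
    change ((twP _ 1 (x : Pui E) : Pui E) : HQ E).coeff q = _
    rw [twP_coeff]
    simp
  map_mul' a b := by
    apply AlgEquiv.ext
    intro x
    apply Subtype.ext
    apply Subtype.ext
    ext q
    rw [restrCl_coe, AlgEquiv.mul_apply, restrCl_coe, restrCl_coe]
    change ((twP _ 1 (x : Pui E) : Pui E) : HQ E).coeff q =
      ((twP _ 1 (twP _ 1 (x : Pui E)) : Pui E) : HQ E).coeff q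
    rw [twP_coeff, twP_coeff, twP_coeff]
    simp

theorem twK_coeff [CharZero E] [Algebra F (Pui E)]
    (hφ : ∀ (σ : E ≃+* E) (x : F), twP σ 1 (algebraMap F (Pui E) x) = algebraMap F (Pui E) x)
    (σ : E ≃ₐ[ℚ] E) (x : algebraicClosure F (Pui E)) (q : ℚ) :
    (((twK hφ σ x : algebraicClosure F (Pui E)) : Pui E) : HQ E).coeff q =
      σ (((x : Pui E) : HQ E).coeff q) := by
  change ((twP (σ : E ≃+* E) 1 (x : Pui E) : Pui E) : HQ E).coeff q = _
  rw [twP_coeff]
  simp

/-- Elements of the field of Puiseux series which are algebraic over `ℚ` are constants. -/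
theorem const_of_root [CharZero E] (x : Pui E) (p : ℚ[X]) (hp0 : p ≠ 0)
    (f : ℚ →+* Pui E) (hpx : p.eval₂ f x = 0) : ∃ a : E, x = cP a := by
  haveI : IsAlgClosed E := IsAlgClosure.isAlgClosed ℚ
  have hs : (p.map (algebraMap ℚ E)).Splits := IsAlgClosed.splits _
  have h1 : (p.map (algebraMap ℚ E)).map cP = p.map f := by
    rw [Polynomial.map_map]
    congr 1
    exact Subsingleton.elim _ _
  have h2 : ((p.map (algebraMap ℚ E)).map cP).eval x = 0 := by
    rw [h1, eval_map, hpx]
  have hne : (p.map (algebraMap ℚ E)) ≠ 0 := (Polynomial.map_ne_zero_iff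
    (algebraMap ℚ E).injective).2 hp0
  rw [hs.eq_prod_roots] at h2
  rw [Polynomial.map_mul, Polynomial.map_multiset_prod, eval_mul, eval_multiset_prod] at h2
  simp only [Polynomial.map_C, eval_C, Multiset.map_map] at h2
  rcases mul_eq_zero.1 h2 with h3 | h3
  · exact absurd ((map_eq_zero _).1 h3) (leadingCoeff_ne_zero.2 hne)
  · rw [Multiset.prod_eq_zero_iff, Multiset.mem_map] at h3
    obtain ⟨a, _, ha⟩ := h3
    refine ⟨a, ?_⟩
    simp only [Function.comp_apply, Polynomial.map_sub, Polynomial.map_X, Polynomial.map_C,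
      eval_sub, eval_X, eval_C] at ha
    exact sub_eq_zero.1 ha

theorem exists_section (φ : F →+* Pui E)
    (hφ : ∀ (σ : E ≃+* E) (x : F), twP σ 1 (φ x) = φ x) (ι : E →+* Ω) :
    ∃ s : (E ≃ₐ[ℚ] E) →* (Ω ≃ₐ[F] Ω),
      Continuous s ∧ ∀ (σ : E ≃ₐ[ℚ] E) (x : E), s σ (ι x) = ι (σ x) := by
  classical
  haveI : CharZero E := algebraRat.charZero E
  letI : Algebra F (Pui E) := φ.toAlgebra
  haveI : IsAlgClosed E := IsAlgClosure.isAlgClosed ℚ
  haveI : IsAlgClosed (Pui E) := inferInstance
  haveI : IsAlgClosure F (algebraicClosure F (Pui E)) := inferInstance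
  let e : Ω ≃ₐ[F] algebraicClosure F (Pui E) := IsAlgClosure.equiv F Ω _
  -- the constants
  have hc : ∀ x : E, ∃ a : E, ((e (ι x) : algebraicClosure F (Pui E)) : Pui E) = cP a := by
    intro x
    obtain ⟨p, hp0, hpx⟩ := Algebra.IsAlgebraic.isAlgebraic (R := ℚ) x
    let f : E →+* Pui E := ((algebraicClosure F (Pui E)).val : _ →+* Pui E).comp
      ((e : Ω →+* algebraicClosure F (Pui E)).comp ι)
    refine const_of_root (f x) p hp0 (f.comp (algebraMap ℚ E)) ?_
    rw [← Polynomial.hom_eval₂]
    rw [aeval_def] at hpx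
    rw [hpx, map_zero]
  let f : E →+* Pui E := ((algebraicClosure F (Pui E)).val : _ →+* Pui E).comp
      ((e : Ω →+* algebraicClosure F (Pui E)).comp ι)
  choose τ0 hτ0 using hc
  have hcinj : Function.Injective (cP : E →+* Pui E) := (cP : E →+* Pui E).injective
  have hf : ∀ x, f x = cP (τ0 x) := hτ0
  let τ1 : E →+* E :=
    { toFun := τ0
      map_one' := by apply hcinj; rw [← hf, map_one, map_one]
      map_mul' := fun a b => by apply hcinj; rw [← hf, map_mul, map_mul, hf, hf]
      map_zero' := by apply hcinj; rw [← hf, map_zero, map_zero]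
      map_add' := fun a b => by apply hcinj; rw [← hf, map_add, map_add, hf, hf] }
  let τ2 : E →ₐ[ℚ] E := τ1.toRatAlgHom
  let τ : E ≃ₐ[ℚ] E := AlgEquiv.ofBijective τ2 (Algebra.IsAlgebraic.algHom_bijective τ2)
  have hτ : ∀ x, f x = cP (τ x) := hτ0
  let s : (E ≃ₐ[ℚ] E) →* (Ω ≃ₐ[F] Ω) :=
    { toFun := fun σ => (e.trans (twK hφ (τ * σ * τ⁻¹))).trans e.symm
      map_one' := by
        apply AlgEquiv.ext
        intro x
        simp
      map_mul' := fun a b => by
        apply AlgEquiv.ext
        intro x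
        have h : τ * (a * b) * τ⁻¹ = (τ * a * τ⁻¹) * (τ * b * τ⁻¹) := by group
        simp only [AlgEquiv.trans_apply, AlgEquiv.mul_apply, h, map_mul, AlgEquiv.apply_symm_apply] }
  have hs : ∀ σ x, e (s σ x) = twK hφ (τ * σ * τ⁻¹) (e x) := by
    intro σ x
    change e (e.symm _) = _
    rw [AlgEquiv.apply_symm_apply]
    rfl
  refine ⟨s, ?_, ?_⟩
  · -- continuity
    haveI : CharZero (Pui E) := charZero_of_injective_ringHom hcinj
    haveI : CharZero F := φ.charZero
    haveI : Normal F Ω := IsAlgClosure.normal F Ω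
    haveI : Algebra.IsAlgebraic F Ω := IsAlgClosure.isAlgebraic
    haveI : IsGalois F Ω := { }
    have hopen : ∀ b : Ω, IsOpen {σ : E ≃ₐ[ℚ] E | s σ b = b} := by
      intro b
      let H : Subgroup (E ≃ₐ[ℚ] E) := (MulAction.stabilizer (Ω ≃ₐ[F] Ω) b).comap s
      have hH : (H : Set (E ≃ₐ[ℚ] E)) = {σ : E ≃ₐ[ℚ] E | s σ b = b} := rfl
      have hfi : H.FiniteIndex := by
        haveI : Finite ((Ω ≃ₐ[F] Ω) ⧸ MulAction.stabilizer (Ω ≃ₐ[F] Ω) b) :=
          Subgroup.quotient_finite_of_isOpen _ (stabilizer_isOpen_of_isIntegral b)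
        haveI : (MulAction.stabilizer (Ω ≃ₐ[F] Ω) b).FiniteIndex :=
          Subgroup.finiteIndex_of_finite_quotient
        constructor
        rw [Subgroup.index_comap]
        exact (Subgroup.isFiniteRelIndex_of_finiteIndex (H := MulAction.stabilizer (Ω ≃ₐ[F] Ω) b) (K := s.range)).relIndex_ne_zero
      have hcl : IsClosed (H : Set (E ≃ₐ[ℚ] E)) := by
        have h1 : (H : Set (E ≃ₐ[ℚ] E)) = ⋂ q : ℚ, {σ : E ≃ₐ[ℚ] E |
            σ (τ⁻¹ ((((e b : algebraicClosure F (Pui E)) : Pui E) : HQ E).coeff q)) =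
              τ⁻¹ ((((e b : algebraicClosure F (Pui E)) : Pui E) : HQ E).coeff q)} := by
          rw [hH]
          ext σ
          simp only [Set.mem_ofPred_eq, Set.mem_iInter]
          constructor
          · intro h q
            have h2 := hs σ b
            rw [h] at h2
            have h3 : (((e b : algebraicClosure F (Pui E)) : Pui E) : HQ E).coeff q =
                (((twK hφ (τ * σ * τ⁻¹) (e b) : algebraicClosure F (Pui E)) : Pui E) : HQ E).coeff q := by
              rw [← h2]
            rw [twK_coeff] at h3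
            apply τ.injective
            rw [← AlgEquiv.mul_apply, ← AlgEquiv.mul_apply, ← h3,
              ← AlgEquiv.mul_apply τ τ⁻¹, mul_inv_cancel, AlgEquiv.one_apply]
          · intro h
            apply e.injective
            rw [hs]
            apply Subtype.ext
            apply Subtype.ext
            ext q
            rw [twK_coeff]
            simp only [AlgEquiv.mul_apply]
            rw [h q, ← AlgEquiv.mul_apply τ τ⁻¹, mul_inv_cancel, AlgEquiv.one_apply]
        rw [h1]
        refine isClosed_iInter fun q => ?_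
        exact (Subgroup.isClosed_of_isOpen (MulAction.stabilizer (E ≃ₐ[ℚ] E)
          (τ⁻¹ ((((e b : algebraicClosure F (Pui E)) : Pui E) : HQ E).coeff q)))
          (stabilizer_isOpen_of_isIntegral _))
      rw [← hH]
      exact H.isOpen_of_isClosed_of_finiteIndex hcl
    apply continuous_of_continuousAt_one s
    rw [ContinuousAt, map_one]
    intro N hN
    rw [krullTopology_mem_nhds_one_iff] at hN
    obtain ⟨L, hL, hLN⟩ := hN
    rw [Filter.mem_map]
    have hbas := Module.finBasis F L
    have h1 : (⋂ i, {σ : E ≃ₐ[ℚ] E | s σ ((hbas i : L) : Ω) = ((hbas i : L) : Ω)}) ∈ nhds (1 : E ≃ₐ[ℚ] E) := by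
      apply IsOpen.mem_nhds
      · exact isOpen_iInter_of_finite fun i => hopen _
      · simp
    refine Filter.mem_of_superset h1 ?_
    intro σ hσ
    apply hLN
    rw [Set.mem_iInter] at hσ
    rw [SetLike.mem_coe, IntermediateField.mem_fixingSubgroup_iff]
    intro x hx
    have h2 : ((∑ i, hbas.repr ⟨x, hx⟩ i • hbas i : L) : Ω) = x := by
      rw [hbas.sum_repr]
    rw [← h2]
    rw [IntermediateField.coe_sum, map_sum]
    refine Finset.sum_congr rfl fun i _ => ?_
    rw [IntermediateField.coe_smul, map_smul, hσ i]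
  · intro σ x
    apply e.injective
    rw [hs]
    apply Subtype.ext
    apply Subtype.ext
    ext q
    rw [twK_coeff]
    have h1 : ((e (ι x) : algebraicClosure F (Pui E)) : Pui E) = cP (τ x) := hτ x
    have h2 : ((e (ι (σ x)) : algebraicClosure F (Pui E)) : Pui E) = cP (τ (σ x)) := hτ (σ x)
    rw [h1, h2, cP_coeff, cP_coeff]
    split_ifs with h
    · simp
    · simp

end main

end Pool.Agent.R412
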